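import Pool.Agent.H752.KM.Stubs

/-!
# Task K5: the probabilities of the hits
-/

set_option autoImplicit false

namespace Pool.Agent.H18R2.KM

open Pool.Agent.NPC Pool.Agent.H620R2.Gauge Pool.Agent.H752.KM MeasureTheory Finset

theorem valB_inj : ∀ (l l' : List Bool), l.length = l'.length → valB l = valB l' → l = l' := by
  intro l
  induction l with
  | nil =>
    intro l' h _
    exact (List.length_eq_zero_iff.1 h.symm).symm
  | cons b l ih =>
    intro l' h h2
    cases l' with
    | nil => exact absurd h (by simp)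
    | cons b' l' =>
      rw [valB_cons, valB_cons] at h2
      have h3 : b = b' := by
        cases b <;> cases b' <;> simp at h2 ⊢ <;> omega
      subst h3
      have h4 : valB l = valB l' := by omega
      rw [ih l' (by simpa using h) h4]

theorem valB_ofFn_lt {n : ℕ} (v : Fin n → Bool) : valB (List.ofFn v) < 2 ^ n := by
  have := valB_lt (List.ofFn v)
  rwa [List.length_ofFn] at this

/-- strings of length `n` and numbers below `2 ^ n` -/
noncomputable def eqv (n : ℕ) : (Fin n → Bool) ≃ Fin (2 ^ n) :=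
  Equiv.ofBijective (fun v => ⟨valB (List.ofFn v), valB_ofFn_lt v⟩)
    ((Fintype.bijective_iff_injective_and_card _).2 ⟨fun v v' h => by
      have h1 : valB (List.ofFn v) = valB (List.ofFn v') := congrArg Fin.val h
      exact List.ofFn_injective (valB_inj _ _ (by rw [List.length_ofFn, List.length_ofFn]) h1),
      by simp⟩)

theorem eqv_val {n : ℕ} (v : Fin n → Bool) : (eqv n v).val = valB (List.ofFn v) := rfl

/-- the number of multiples -/
def cc (N J : ℕ) : ℕ := (N - 1) / J + 1

theorem card_mult {n J : ℕ} (hJ : 1 ≤ J) :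
    Nat.card {v : Fin n → Bool // valB (List.ofFn v) * J < 2 ^ n} = cc (2 ^ n) J := by
  have hN : 1 ≤ 2 ^ n := Nat.one_le_two_pow
  have h1 : ∀ k : ℕ, k * J < 2 ^ n ↔ k < cc (2 ^ n) J := by
    intro k
    unfold cc
    rw [Nat.lt_succ_iff, Nat.le_div_iff_mul_le hJ]
    omega
  let e : {v : Fin n → Bool // valB (List.ofFn v) * J < 2 ^ n} ≃ Fin (cc (2 ^ n) J) :=
    { toFun := fun v => ⟨valB (List.ofFn v.1), (h1 _).1 v.2⟩
      invFun := fun k => ⟨(eqv n).symm ⟨k.1, by
          have h2 := (h1 k.1).2 k.2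
          calc k.1 ≤ k.1 * J := Nat.le_mul_of_pos_right _ hJ
            _ < 2 ^ n := h2⟩, by
          rw [← eqv_val, Equiv.apply_symm_apply]
          exact (h1 k.1).2 k.2⟩
      left_inv := by
        rintro ⟨v, hv⟩
        apply Subtype.ext
        apply (eqv n).injective
        simp only [Equiv.apply_symm_apply]
        apply Fin.ext
        rw [eqv_val]
      right_inv := by
        rintro ⟨k, hk⟩
        apply Fin.ext
        simp only
        rw [← eqv_val, Equiv.apply_symm_apply] }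
  rw [Nat.card_congr e, Nat.card_eq_fintype_card, Fintype.card_fin]

theorem cc_lo {N J : ℕ} (hJ : 1 ≤ J) (hN : 1 ≤ N) : N ≤ cc N J * J := by
  unfold cc
  have h1 := Nat.div_add_mod (N - 1) J
  have h2 := Nat.mod_lt (N - 1) hJ
  have h3 : ((N - 1) / J + 1) * J = J * ((N - 1) / J) + J := by ring
  rw [h3]
  omega

theorem cc_hi {N J : ℕ} (hN : 1 ≤ N) : cc N J * J ≤ N + J := by
  unfold cc
  have h1 := Nat.div_mul_le_self (N - 1) J
  have h3 : ((N - 1) / J + 1) * J = (N - 1) / J * J + J := by ring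
  rw [h3]
  omega

theorem prv_eq {m : ℕ} {w : List Bool} (hw : w.length = m) :
    prv m w = (cc (2 ^ (3 * m)) (valB w + 2 ^ m + 1) : ℝ) / 2 ^ (3 * m) := by
  unfold prv
  have h1 : valB (w ++ [true]) = valB w + 2 ^ m := by
    rw [valB_append, hw]
    simp
  rw [h1, card_mult (Nat.succ_le_succ (Nat.zero_le _))]

theorem prv_lo {m : ℕ} {w : List Bool} (hw : w.length = m) :
    1 / ((valB w : ℝ) + 2 ^ m + 1) ≤ prv m w := by
  rw [prv_eq hw, div_le_div_iff₀ (by positivity) (by positivity), one_mul]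
  have h1 := cc_lo (N := 2 ^ (3 * m)) (J := valB w + 2 ^ m + 1) (Nat.succ_le_succ (Nat.zero_le _))
    Nat.one_le_two_pow
  have h2 : ((2 ^ (3 * m) : ℕ) : ℝ) ≤
      ((cc (2 ^ (3 * m)) (valB w + 2 ^ m + 1) * (valB w + 2 ^ m + 1) : ℕ) : ℝ) := by
    exact_mod_cast h1
  push_cast at h2
  exact h2

theorem prv_hi {m : ℕ} {w : List Bool} (hw : w.length = m) :
    prv m w ≤ 1 / ((valB w : ℝ) + 2 ^ m + 1) + 1 / 2 ^ (3 * m) := by
  rw [prv_eq hw, div_add_div _ _ (by positivity) (by positivity),
    div_le_div_iff₀ (by positivity) (by positivity)]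
  have h1 := cc_hi (N := 2 ^ (3 * m)) (J := valB w + 2 ^ m + 1) Nat.one_le_two_pow
  have h2 : ((cc (2 ^ (3 * m)) (valB w + 2 ^ m + 1) * (valB w + 2 ^ m + 1) : ℕ) : ℝ) ≤
      ((2 ^ (3 * m) + (valB w + 2 ^ m + 1) : ℕ) : ℝ) := by
    exact_mod_cast h1
  push_cast at h2
  have h3 : (0 : ℝ) < 2 ^ (3 * m) := by positivity
  nlinarith

theorem prv_le_one (m : ℕ) (w : List Bool) : prv m w ≤ 1 := by
  unfold prv
  rw [div_le_one (by positivity)]
  have h1 : Nat.card {v : Fin (3 * m) → Bool //
      valB (List.ofFn v) * (valB (w ++ [true]) + 1) < 2 ^ (3 * m)} ≤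
      Nat.card (Fin (3 * m) → Bool) := Nat.card_le_card_of_injective _ Subtype.val_injective
  rw [Nat.card_eq_fintype_card (α := Fin (3 * m) → Bool)] at h1
  simp only [Fintype.card_pi, Fintype.card_bool, Finset.prod_const, Finset.card_univ,
    Fintype.card_fin] at h1
  exact_mod_cast h1

theorem prod_tel (a : ℝ) (ha : 0 < a) (n : ℕ) :
    ∏ k ∈ range n, (1 - 1 / ((k : ℝ) + a + 1)) = a / (n + a) := by
  induction n with
  | zero =>
    rw [prod_range_zero, Nat.cast_zero, zero_add, div_self ha.ne']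
  | succ n ih =>
    rw [prod_range_succ, ih]
    have h1 : (n : ℝ) + a ≠ 0 := by positivity
    have h2 : (n : ℝ) + a + 1 ≠ 0 := by positivity
    push_cast
    have h3 : (n : ℝ) + 1 + a ≠ 0 := by positivity
    field_simp
    ring

theorem prod_diff {ι : Type} (s : Finset ι) (f g : ι → ℝ) (hf : ∀ i ∈ s, 0 ≤ f i ∧ f i ≤ 1)
    (hg : ∀ i ∈ s, 0 ≤ g i ∧ g i ≤ 1) :
    |∏ i ∈ s, f i - ∏ i ∈ s, g i| ≤ ∑ i ∈ s, |f i - g i| := by
  classical
  induction s using Finset.induction_on with
  | empty => simp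
  | insert a s ha ih =>
    rw [prod_insert ha, prod_insert ha, sum_insert ha]
    have h1 := ih (fun i hi => hf i (mem_insert_of_mem hi)) (fun i hi => hg i (mem_insert_of_mem hi))
    have h2 : |∏ i ∈ s, f i| ≤ 1 := by
      rw [abs_of_nonneg (prod_nonneg fun i hi => (hf i (mem_insert_of_mem hi)).1)]
      exact prod_le_one (fun i hi => (hf i (mem_insert_of_mem hi)).1)
        (fun i hi => (hf i (mem_insert_of_mem hi)).2)
    have h3 : |g a| ≤ 1 := by
      rw [abs_of_nonneg (hg a (mem_insert_self _ _)).1]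
      exact (hg a (mem_insert_self _ _)).2
    have e : f a * ∏ i ∈ s, f i - g a * ∏ i ∈ s, g i =
        (f a - g a) * ∏ i ∈ s, f i + g a * (∏ i ∈ s, f i - ∏ i ∈ s, g i) := by ring
    rw [e]
    refine (abs_add_le _ _).trans ?_
    rw [abs_mul, abs_mul]
    have h4 : |f a - g a| * |∏ i ∈ s, f i| ≤ |f a - g a| * 1 :=
      mul_le_mul_of_nonneg_left h2 (abs_nonneg _)
    have h5 : |g a| * |∏ i ∈ s, f i - ∏ i ∈ s, g i| ≤ 1 * |∏ i ∈ s, f i - ∏ i ∈ s, g i| :=
      mul_le_mul_of_nonneg_right h3 (abs_nonneg _)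
    linarith

/-- K5 -/
theorem t_prv : St_prv := by
  intro m
  have h2m : (0 : ℝ) < 2 ^ m := by positivity
  constructor
  · intro w hw
    refine ⟨?_, prv_le_one m w, ?_⟩
    · unfold prv
      positivity
    · refine (prv_hi hw).trans ?_
      have h1 : 1 / ((valB w : ℝ) + 2 ^ m + 1) ≤ 1 / 2 ^ m := by
        apply one_div_le_one_div_of_le h2m
        have : (0 : ℝ) ≤ valB w := Nat.cast_nonneg _
        linarith
      have h2 : (1 : ℝ) / 2 ^ (3 * m) ≤ 1 / 2 ^ m := by
        apply one_div_le_one_div_of_le h2m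
        exact pow_le_pow_right₀ (by norm_num) (by omega)
      have h3 : (2 : ℝ) / 2 ^ m = 1 / 2 ^ m + 1 / 2 ^ m := by ring
      rw [h3]
      linarith
  · have hw : ∀ w : Fin m → Bool, (List.ofFn w).length = m := fun w => List.length_ofFn
    have h1 : ∏ w : Fin m → Bool, (1 - 1 / ((valB (List.ofFn w) : ℝ) + 2 ^ m + 1)) = 1 / 2 := by
      have h2 := Fintype.prod_equiv (eqv m)
        (fun w : Fin m → Bool => (1 - 1 / ((valB (List.ofFn w) : ℝ) + 2 ^ m + 1)))
        (fun k : Fin (2 ^ m) => (1 - 1 / ((k.val : ℝ) + 2 ^ m + 1))) (fun w => by rw [eqv_val])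
      rw [h2, ← Finset.prod_range (fun k : ℕ => (1 - 1 / ((k : ℝ) + 2 ^ m + 1))),
        prod_tel _ h2m]
      push_cast
      field_simp
      ring
    rw [← h1]
    refine (prod_diff _ _ _ (fun w _ => ?_) (fun w _ => ?_)).trans ?_
    · have h2 : 0 ≤ prv m (List.ofFn w) := by
        unfold prv
        positivity
      have h3 := prv_le_one m (List.ofFn w)
      constructor <;> linarith
    · have h2 : 0 ≤ 1 / ((valB (List.ofFn w) : ℝ) + 2 ^ m + 1) := by positivity
      have h3 : 1 / ((valB (List.ofFn w) : ℝ) + 2 ^ m + 1) ≤ 1 := by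
        rw [div_le_one (by positivity)]
        have : (0 : ℝ) ≤ valB (List.ofFn w) := Nat.cast_nonneg _
        linarith
      constructor <;> linarith
    · have h2 : ∀ w ∈ (univ : Finset (Fin m → Bool)), |(1 - prv m (List.ofFn w)) -
          (1 - 1 / ((valB (List.ofFn w) : ℝ) + 2 ^ m + 1))| ≤ 1 / 2 ^ (3 * m) := by
        intro w _
        have h3 := prv_lo (hw w)
        have h4 := prv_hi (hw w)
        rw [abs_le]
        constructor <;> linarith
      refine (sum_le_sum h2).trans (le_of_eq ?_)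
      rw [sum_const, card_univ]
      simp only [Fintype.card_pi, Fintype.card_bool, Finset.prod_const, Finset.card_univ,
        Fintype.card_fin, nsmul_eq_mul]
      push_cast
      have h3 : (4 : ℝ) ^ m = 2 ^ m * 2 ^ m := by
        rw [← mul_pow]; norm_num
      have h4 : (2 : ℝ) ^ (3 * m) = 2 ^ m * (2 ^ m * 2 ^ m) := by
        rw [← pow_add, ← pow_add]
        congr 1
        omega
      rw [h3, h4]
      field_simp

end Pool.Agent.H18R2.KM
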